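import Pool.Agent.P8H24.PG.Stm

/-!
# Project PG: the maximal condition for a semidirect product with `ℤ`
-/

set_option autoImplicit false

namespace Pool.Agent.P8H52.PG

open Pool.Agent.P8H24.PG Pool.Agent.Helper611.PcGrp Pool.Agent.Helper611.PcFit

theorem max : S_MAX := by
  classical
  intro Γ _ hΓ φ P
  obtain ⟨s, hs⟩ := hΓ (P.comap (SemidirectProduct.inl (φ := φ)))
  obtain ⟨t, ht⟩ := (Subgroup.isCyclic_iff_exists_zpowers_eq_top
    (P.map (SemidirectProduct.rightHom (φ := φ)))).mp inferInstance
  have htm : t ∈ P.map (SemidirectProduct.rightHom (φ := φ)) := by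
    rw [← ht]
    exact Subgroup.mem_zpowers t
  obtain ⟨b, hb, hbt⟩ := htm
  refine ⟨s.image (SemidirectProduct.inl (φ := φ)) ∪ {b}, ?_⟩
  apply le_antisymm
  · rw [Subgroup.closure_le]
    intro x hx
    rw [Finset.coe_union, Finset.coe_image, Finset.coe_singleton] at hx
    rcases hx with ⟨y, hy, rfl⟩ | hx
    · have h1 : y ∈ P.comap (SemidirectProduct.inl (φ := φ)) := by
        rw [← hs]
        exact Subgroup.subset_closure hy
      exact h1
    · rw [Set.mem_singleton_iff] at hx
      rw [hx]
      exact hb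
  · intro x hx
    have h1 : SemidirectProduct.rightHom x ∈ P.map (SemidirectProduct.rightHom (φ := φ)) :=
      Subgroup.mem_map_of_mem _ hx
    rw [← ht, Subgroup.mem_zpowers_iff] at h1
    obtain ⟨n, hn⟩ := h1
    have h2 : SemidirectProduct.rightHom (x * b ^ (-n)) = 1 := by
      rw [map_mul, map_zpow, hbt, zpow_neg, hn, mul_inv_cancel]
    have h3 : x * b ^ (-n) ∈ (SemidirectProduct.inl (φ := φ)).range := by
      rw [SemidirectProduct.range_inl_eq_ker_rightHom]
      exact h2
    obtain ⟨g, hg⟩ := h3
    have h4 : g ∈ P.comap (SemidirectProduct.inl (φ := φ)) := by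
      show SemidirectProduct.inl g ∈ P
      rw [hg]
      exact P.mul_mem hx (P.zpow_mem hb _)
    rw [← hs] at h4
    have h5 : SemidirectProduct.inl g ∈ Subgroup.closure
        ((s.image (SemidirectProduct.inl (φ := φ)) ∪ {b} : Finset _) :
          Set (Γ ⋊[φ] Multiplicative ℤ)) := by
      have h6 := Subgroup.mem_map_of_mem (SemidirectProduct.inl (φ := φ)) h4
      rw [MonoidHom.map_closure] at h6
      refine Subgroup.closure_mono ?_ h6
      rw [Finset.coe_union, Finset.coe_image]
      exact Set.subset_union_left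
    have h7 : x = SemidirectProduct.inl g * b ^ n := by
      rw [hg, mul_assoc, ← zpow_add]
      simp
    rw [h7]
    refine Subgroup.mul_mem _ h5 (Subgroup.zpow_mem _ (Subgroup.subset_closure ?_) _)
    rw [Finset.coe_union, Finset.coe_singleton]
    exact Set.mem_union_right _ rfl

end Pool.Agent.P8H52.PG
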